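import Mathlib
import Pool.Agent.Lib.MP_9317e9_co.Main
import Pool.Agent.Lib.MP_9317e9_co.P4.Pieces

set_option autoImplicit false

universe u

namespace Pool.Agent.Lib.MP_9317e9_co.Cn

open Pool.Agent.Lib.MP_9317e9_co

variable {V : Type u}

/-- every subset of `S` has a kernel -/
def KP (G : Digraph V) (S : Set V) : Prop :=
  ∀ U ⊆ S, ∃ A ⊆ U, Indep G A ∧ ∀ v ∈ U, v ∈ Out1 G A

/-- every subset of `T` has a sink-kernel -/
def SKP (G : Digraph V) (T : Set V) : Prop :=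
  ∀ U ⊆ T, ∃ B ⊆ U, Indep G B ∧ ∀ v ∈ U, v ∈ In1 G B

/-- one layer: a kernel-perfect set and a sink-kernel-perfect set may be removed together with
everything which they cover -/
lemma solv_layer {G : Digraph V} {U S T : Set V} (hSU : S ⊆ U) (hTU : T ⊆ U)
    (hST : ∀ x ∈ S, x ∉ T) (hS : KP G S) (hT : SKP G T)
    (h : Solv G (U \ (Out1 G S ∪ In1 G T))) : Solv G U := by
  obtain ⟨W0, W1, A, B, hW, hd, ⟨a1, a2, a3⟩, ⟨b1, b2, b3⟩⟩ := h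
  have hW' : ∀ v, v ∈ W0 ∪ W1 → v ∈ U ∧ v ∉ Out1 G S ∧ v ∉ In1 G T := by
    intro v hv; rw [hW] at hv
    exact ⟨hv.1, fun h => hv.2 (Or.inl h), fun h => hv.2 (Or.inr h)⟩
  obtain ⟨L, hLS, hLi, hLd⟩ := hS {s | s ∈ S ∧ ¬ ∃ a ∈ A, G.Adj a s} (fun s hs => hs.1)
  obtain ⟨M, hMT, hMi, hMd⟩ := hT {t | t ∈ T ∧ ¬ ∃ b ∈ B, G.Adj t b} (fun s hs => hs.1)
  have hSdom : ∀ s ∈ S, s ∈ A ∪ L ∨ ∃ a ∈ A ∪ L, G.Adj a s := by
    intro s hs
    by_cases h : ∃ a ∈ A, G.Adj a s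
    · obtain ⟨a, ha, h⟩ := h
      exact Or.inr ⟨a, Or.inl ha, h⟩
    · rcases hLd s ⟨hs, h⟩ with h | ⟨a, ha, h⟩
      · exact Or.inl (Or.inr h)
      · exact Or.inr ⟨a, Or.inr ha, h⟩
  have hTdom : ∀ s ∈ T, s ∈ B ∪ M ∨ ∃ a ∈ B ∪ M, G.Adj s a := by
    intro s hs
    by_cases h : ∃ a ∈ B, G.Adj s a
    · obtain ⟨a, ha, h⟩ := h
      exact Or.inr ⟨a, Or.inl ha, h⟩
    · rcases hMd s ⟨hs, h⟩ with h | ⟨a, ha, h⟩
      · exact Or.inl (Or.inr h)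
      · exact Or.inr ⟨a, Or.inr ha, h⟩
  refine ⟨W0 ∪ ((Out1 G S ∩ U) \ T), W1 ∪ (((In1 G T ∩ U) \ Out1 G S) ∪ T), A ∪ L, B ∪ M,
    ?_, ?_, ⟨?_, ?_, ?_⟩, ⟨?_, ?_, ?_⟩⟩
  · ext v
    constructor
    · rintro ((h | h) | (h | (h | h)))
      · exact (hW' v (Or.inl h)).1
      · exact h.1.2
      · exact (hW' v (Or.inr h)).1
      · exact h.1.2
      · exact hTU h
    · intro hv
      by_cases hvT : v ∈ T
      · exact Or.inr (Or.inr (Or.inr hvT))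
      by_cases h1 : v ∈ Out1 G S
      · exact Or.inl (Or.inr ⟨⟨h1, hv⟩, hvT⟩)
      by_cases h2 : v ∈ In1 G T
      · exact Or.inr (Or.inr (Or.inl ⟨⟨h2, hv⟩, h1⟩))
      have : v ∈ W0 ∪ W1 := by
        rw [hW]
        exact ⟨hv, fun h => h.elim h1 h2⟩
      rcases this with h | h
      · exact Or.inl (Or.inl h)
      · exact Or.inr (Or.inl h)
  · rw [Set.disjoint_left]
    rintro v (h | h) (h' | (h' | h'))
    · exact Set.disjoint_left.1 hd h h'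
    · exact (hW' v (Or.inl h)).2.2 h'.1.1
    · exact (hW' v (Or.inl h)).2.2 (Or.inl h')
    · exact (hW' v (Or.inr h')).2.1 h.1.1
    · exact h'.2 h.1.1
    · exact h.2 h'
  · rintro v (h | h)
    · exact Or.inl (a1 h)
    · exact Or.inr ⟨⟨Or.inl (hLS h).1, hSU (hLS h).1⟩, hST v (hLS h).1⟩
  · rintro x (hx | hx) y (hy | hy) hxy
    · exact a2 x hx y hy hxy
    · exact (hLS hy).2 ⟨x, hx, hxy⟩
    · exact (hW' y (Or.inl (a1 hy))).2.1 (Or.inr ⟨x, (hLS hx).1, hxy⟩)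
    · exact hLi x hx y hy hxy
  · rintro v (hv | ⟨⟨hv | ⟨s, hs, hsv⟩, hvU⟩, hvT⟩)
    · rcases a3 v hv with h | ⟨a, ha, h | ⟨w, hw, h, h'⟩⟩
      · exact Or.inl (Or.inl h)
      · exact Or.inr ⟨a, Or.inl ha, Or.inl h⟩
      · exact Or.inr ⟨a, Or.inl ha, Or.inr ⟨w, Or.inl hw, h, h'⟩⟩
    · rcases hSdom v hv with h | ⟨a, ha, h⟩
      · exact Or.inl h
      · exact Or.inr ⟨a, ha, Or.inl h⟩
    · rcases hSdom s hs with h | ⟨a, ha, h⟩
      · exact Or.inr ⟨s, h, Or.inl hsv⟩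
      · exact Or.inr ⟨a, ha, Or.inr ⟨s, Or.inr ⟨⟨Or.inl hs, hSU hs⟩, hST s hs⟩, h, hsv⟩⟩
  · rintro v (h | h)
    · exact Or.inl (b1 h)
    · exact Or.inr (Or.inr (hMT h).1)
  · rintro x (hx | hx) y (hy | hy) hxy
    · exact b2 x hx y hy hxy
    · exact (hW' x (Or.inr (b1 hx))).2.2 (Or.inr ⟨y, (hMT hy).1, hxy⟩)
    · exact (hMT hx).2 ⟨y, hy, hxy⟩
    · exact hMi x hx y hy hxy
  · rintro v (hv | (⟨⟨hv | ⟨t, ht, hvt⟩, hvU⟩, hvS⟩ | hv))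
    · rcases b3 v hv with h | ⟨a, ha, h | ⟨w, hw, h, h'⟩⟩
      · exact Or.inl (Or.inl h)
      · exact Or.inr ⟨a, Or.inl ha, Or.inl h⟩
      · exact Or.inr ⟨a, Or.inl ha, Or.inr ⟨w, Or.inl hw, h, h'⟩⟩
    · rcases hTdom v hv with h | ⟨a, ha, h⟩
      · exact Or.inl h
      · exact Or.inr ⟨a, ha, Or.inl h⟩
    · rcases hTdom t ht with h | ⟨a, ha, h⟩
      · exact Or.inr ⟨t, h, Or.inl hvt⟩
      · exact Or.inr ⟨a, ha, Or.inr ⟨t, Or.inr (Or.inr ht), hvt, h⟩⟩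
    · rcases hTdom v hv with h | ⟨a, ha, h⟩
      · exact Or.inl h
      · exact Or.inr ⟨a, ha, Or.inl h⟩

lemma kp_of_wf {G : Digraph V} {S : Set V}
    (hS : ¬ ∃ f : ℕ → V, (∀ n, f n ∈ S) ∧ ∀ n, G.Adj (f (n + 1)) (f n)) : KP G S := by
  intro U hU
  exact exists_kernel_wf (by rintro ⟨f, hf, h⟩; exact hS ⟨f, fun n => hU (hf n), h⟩)

lemma skp_of_rv {G : Digraph V} {T : Set V} (h : KP (P4.rv G) T) : SKP G T := by
  intro U hU
  obtain ⟨A, h1, h2, h3⟩ := h U hU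
  exact ⟨A, h1, fun a ha b hb hab => h2 b hb a ha hab, h3⟩

/-- finite in-degrees and all arcs go down in time -/
lemma kp_of_time {G : Digraph V} {S : Set V} (τ : V → ℕ)
    (hS : ∀ x ∈ S, ∀ y ∈ S, G.Adj y x → τ x < τ y)
    (hfin : ∀ v ∈ S, {u | u ∈ S ∧ G.Adj u v}.Finite) : KP G S := by
  classical
  intro D hDS
  have hch : ∀ F : Finset V, ∃ A ⊆ (F : Set V) ∩ D, Indep G A ∧
      ∀ v ∈ (F : Set V) ∩ D, v ∈ Out1 G A := by
    intro F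
    apply exists_kernel_wf
    rintro ⟨f, hf, hadj⟩
    have hstep : ∀ n, τ (f n) < τ (f (n + 1)) := fun n =>
      hS _ (hDS (hf n).2) _ (hDS (hf (n + 1)).2) (hadj n)
    have hmono : StrictMono fun n => τ (f n) := strictMono_nat_of_lt_succ hstep
    have hinj : Function.Injective f := fun a b hab => hmono.injective (by simp [hab])
    exact Set.infinite_range_of_injective hinj
      (F.finite_toSet.subset (by rintro _ ⟨n, rfl⟩; exact (hf n).1))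
  choose K hK1 hK2 hK3 using hch
  set 𝒰 : Ultrafilter (Finset V) := Ultrafilter.of Filter.atTop with h𝒰
  have hle : (𝒰 : Filter (Finset V)) ≤ Filter.atTop := Ultrafilter.of_le _
  refine ⟨{v | ∀ᶠ F in (𝒰 : Filter (Finset V)), v ∈ K F}, ?_, ?_, ?_⟩
  · intro v hv
    obtain ⟨F, hF⟩ := hv.exists
    exact (hK1 F hF).2
  · intro a ha b hb hab
    obtain ⟨F, hF1, hF2⟩ := (Filter.Eventually.and ha hb).exists
    exact hK2 F a hF1 b hF2 hab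
  · intro v hv
    have hNf : {u | u ∈ D ∧ G.Adj u v}.Finite :=
      (hfin v (hDS hv)).subset fun u hu => ⟨hDS hu.1, hu.2⟩
    have hev : ∀ᶠ F in (𝒰 : Filter (Finset V)), v ∈ K F ∨
        ∃ a ∈ {u | u ∈ D ∧ G.Adj u v}, a ∈ K F := by
      have h1 : ∀ᶠ F in (𝒰 : Filter (Finset V)), {v} ⊆ F := hle (Filter.mem_atTop _)
      filter_upwards [h1] with F hF
      have hvF : v ∈ F := hF (Finset.mem_singleton_self _)
      rcases hK3 F v ⟨hvF, hv⟩ with h | ⟨a, ha, h⟩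
      · exact Or.inl h
      · exact Or.inr ⟨a, ⟨(hK1 F ha).2, h⟩, ha⟩
    rw [Ultrafilter.eventually_or, Ultrafilter.eventually_exists_mem_iff hNf] at hev
    rcases hev with h | ⟨a, ha, h⟩
    · exact Or.inl h
    · exact Or.inr ⟨a, h, ha.2⟩

end Pool.Agent.Lib.MP_9317e9_co.Cn
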