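import Mathlib
import Pool.Agent.Lib.MP_9317e9_co.Cn.Layer

set_option autoImplicit false

universe u

namespace Pool.Agent.Lib.MP_9317e9_co.Cn

open Pool.Agent.Lib.MP_9317e9_co

variable {V : Type u}

/-- a set built by adding vertices one by one, none of which sends an arc to an older one -/
lemma kp_of_steps {G : Digraph V} (hG : ∀ v, ¬ G.Adj v v) (S : ℕ → Set V) (h0 : S 0 = ∅)
    (hs : ∀ n, S (n + 1) = S n ∨
      ∃ y, y ∉ S n ∧ (∀ s ∈ S n, ¬ G.Adj y s) ∧ S (n + 1) = insert y (S n)) :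
    KP G (⋃ n, S n) := by
  classical
  have hmono : Monotone S := by
    apply monotone_nat_of_le_succ
    intro n
    rcases hs n with h | ⟨y, -, -, h⟩
    · rw [h]
    · rw [h]; exact Set.subset_insert _ _
  have hex : ∀ x, x ∈ (⋃ n, S n) → ∃ n, x ∈ S n := fun x hx => Set.mem_iUnion.1 hx
  -- if `x → y` then `x` is older
  have hkey : ∀ x y, x ∈ (⋃ n, S n) → y ∈ (⋃ n, S n) → G.Adj x y →
      ∃ k, x ∈ S k ∧ y ∉ S k := by
    intro x y hx hy hxy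
    have hy' := hex y hy
    have hx' := hex x hx
    obtain ⟨m, hm, hmin⟩ : ∃ m, y ∈ S m ∧ ∀ k < m, y ∉ S k :=
      ⟨Nat.find hy', Nat.find_spec hy', fun k hk => Nat.find_min hy' hk⟩
    rcases m with _ | k
    · rw [h0] at hm; exact absurd hm (Set.notMem_empty _)
    refine ⟨k, ?_, hmin k (Nat.lt_succ_self k)⟩
    by_contra hxk
    obtain ⟨j', hj, hjmin⟩ : ∃ m, x ∈ S m ∧ ∀ k < m, x ∉ S k :=
      ⟨Nat.find hx', Nat.find_spec hx', fun k hk => Nat.find_min hx' hk⟩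
    rcases j' with _ | j
    · rw [h0] at hj; exact absurd hj (Set.notMem_empty _)
    have hjk : k ≤ j := by
      by_contra hlt
      push Not at hlt
      exact hxk (hmono (Nat.succ_le_of_lt hlt) hj)
    have hxj : x ∉ S j := hjmin j (Nat.lt_succ_self j)
    rcases hs j with h | ⟨z, hz, hza, h⟩
    · rw [h] at hj; exact hxj hj
    · rw [h] at hj
      rcases hj with rfl | hj
      · rcases Nat.eq_or_lt_of_le hjk with rfl | hlt
        · rw [h] at hm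
          rcases hm with rfl | hm
          · exact hG _ hxy
          · exact hmin k (Nat.lt_succ_self k) hm
        · exact hza y (hmono (Nat.succ_le_of_lt hlt) hm) hxy
      · exact hxj hj
  apply kp_of_wf
  rintro ⟨f, hf, hadj⟩
  have hfe : ∀ n, ∃ m, f n ∈ S m := fun n => hex _ (hf n)
  let τ : ℕ → ℕ := fun n => Nat.find (hfe n)
  have hdec : ∀ n, τ (n + 1) < τ n := by
    intro n
    obtain ⟨k, h1, h2⟩ := hkey (f (n + 1)) (f n) (hf _) (hf _) (hadj n)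
    have h3 : τ (n + 1) ≤ k := Nat.find_min' (hfe (n + 1)) h1
    have h4 : k < τ n := by
      by_contra hle
      push Not at hle
      exact h2 (hmono hle (Nat.find_spec (hfe n)))
    omega
  have hb : ∀ n, τ n + n ≤ τ 0 := by
    intro n
    induction n with
    | zero => simp
    | succ n ih => have := hdec n; omega
  have := hb (τ 0 + 1)
  omega

/-- one step of the harmless process -/
def HStep (G : Digraph V) (D : Set V) (v : V) (σ σ' : Set V × Set V) : Prop :=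
  (σ' = σ ∧ (v ∈ Out1 G σ.1 ∨ v ∈ In1 G σ.2)) ∨
  (∃ y ∈ D, (y = v ∨ G.Adj y v) ∧ y ∉ σ.1 ∧ y ∉ σ.2 ∧ (∀ s ∈ σ.1, ¬ G.Adj y s) ∧
    σ' = (insert y σ.1, σ.2)) ∨
  (∃ y ∈ D, (y = v ∨ G.Adj v y) ∧ y ∉ σ.1 ∧ y ∉ σ.2 ∧ (∀ t ∈ σ.2, ¬ G.Adj t y) ∧
    σ' = (σ.1, insert y σ.2)) ∨
  (σ' = σ ∧ (∀ y ∈ D, G.Adj y v → y ∉ σ.1 → y ∉ σ.2 → ∃ s ∈ σ.1, G.Adj y s) ∧
    (∀ y ∈ D, G.Adj v y → y ∉ σ.1 → y ∉ σ.2 → ∃ t ∈ σ.2, G.Adj t y))

lemma exists_hstep (G : Digraph V) (D : Set V) (v : V) (σ : Set V × Set V) :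
    ∃ σ', HStep G D v σ σ' := by
  classical
  by_cases h1 : v ∈ Out1 G σ.1 ∨ v ∈ In1 G σ.2
  · exact ⟨σ, Or.inl ⟨rfl, h1⟩⟩
  by_cases h2 : ∃ y ∈ D, (y = v ∨ G.Adj y v) ∧ y ∉ σ.1 ∧ y ∉ σ.2 ∧ (∀ s ∈ σ.1, ¬ G.Adj y s)
  · obtain ⟨y, hyD, hy, h3, h4, h5⟩ := h2
    exact ⟨_, Or.inr (Or.inl ⟨y, hyD, hy, h3, h4, h5, rfl⟩)⟩
  by_cases h3 : ∃ y ∈ D, (y = v ∨ G.Adj v y) ∧ y ∉ σ.1 ∧ y ∉ σ.2 ∧ (∀ t ∈ σ.2, ¬ G.Adj t y)
  · obtain ⟨y, hyD, hy, h4, h5, h6⟩ := h3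
    exact ⟨_, Or.inr (Or.inr (Or.inl ⟨y, hyD, hy, h4, h5, h6, rfl⟩))⟩
  refine ⟨σ, Or.inr (Or.inr (Or.inr ⟨rfl, ?_, ?_⟩))⟩
  · intro y hyD hy h4 h5
    by_contra hno
    push Not at hno
    exact h2 ⟨y, hyD, Or.inr hy, h4, h5, hno⟩
  · intro y hyD hy h4 h5
    by_contra hno
    push Not at hno
    exact h3 ⟨y, hyD, Or.inr hy, h4, h5, hno⟩

/-- the harmless process -/
lemma exists_harmless {G : Digraph V} (hG : ∀ v, ¬ G.Adj v v) {D : Set V} (hD : D.Countable) :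
    ∃ S T : Set V, S ⊆ D ∧ T ⊆ D ∧ (∀ x ∈ S, x ∉ T) ∧ KP G S ∧ SKP G T ∧
      ∀ v ∈ D, v ∉ Out1 G S → v ∉ In1 G T →
        (∃ F : Set V, F.Finite ∧ F ⊆ S ∧ ∀ u ∈ D, G.Adj u v → u ∉ T → ∃ s ∈ F, G.Adj u s) ∧
        (∃ F : Set V, F.Finite ∧ F ⊆ T ∧ ∀ u ∈ D, G.Adj v u → u ∉ S → ∃ t ∈ F, G.Adj t u) := by
  classical
  rcases D.eq_empty_or_nonempty with rfl | hne
  · refine ⟨∅, ∅, le_rfl, le_rfl, by simp, ?_, ?_, by simp⟩
    · intro U hU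
      rw [Set.subset_empty_iff] at hU
      subst hU
      exact ⟨∅, le_rfl, by simp [Indep], by simp⟩
    · intro U hU
      rw [Set.subset_empty_iff] at hU
      subst hU
      exact ⟨∅, le_rfl, by simp [Indep], by simp⟩
  obtain ⟨f, hf⟩ := hD.exists_eq_range hne
  choose nx hnx using fun (n : ℕ) (σ : Set V × Set V) => exists_hstep G D (f n) σ
  let σ : ℕ → Set V × Set V := fun n => Nat.rec (∅, ∅) (fun n s => nx n s) n
  have hσ0 : σ 0 = (∅, ∅) := rfl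
  have hσ : ∀ n, HStep G D (f n) (σ n) (σ (n + 1)) := fun n => hnx n (σ n)
  -- steps on the two sides
  have hs1 : ∀ n, (σ (n + 1)).1 = (σ n).1 ∨
      ∃ y, y ∉ (σ n).1 ∧ (∀ s ∈ (σ n).1, ¬ G.Adj y s) ∧ (σ (n + 1)).1 = insert y (σ n).1 := by
    intro n
    rcases hσ n with ⟨h, -⟩ | ⟨y, -, -, h3, -, h5, h⟩ | ⟨y, -, -, h3, -, h5, h⟩ | ⟨h, -⟩
    · exact Or.inl (by rw [h])
    · exact Or.inr ⟨y, h3, h5, by rw [h]⟩
    · exact Or.inl (by rw [h])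
    · exact Or.inl (by rw [h])
  have hs2 : ∀ n, (σ (n + 1)).2 = (σ n).2 ∨
      ∃ y, y ∉ (σ n).2 ∧ (∀ s ∈ (σ n).2, ¬ (P4.rv G).Adj y s) ∧
        (σ (n + 1)).2 = insert y (σ n).2 := by
    intro n
    rcases hσ n with ⟨h, -⟩ | ⟨y, -, -, h3, -, h5, h⟩ | ⟨y, -, -, -, h4, h5, h⟩ | ⟨h, -⟩
    · exact Or.inl (by rw [h])
    · exact Or.inl (by rw [h])
    · exact Or.inr ⟨y, h4, h5, by rw [h]⟩
    · exact Or.inl (by rw [h])
  have hmono1 : Monotone fun n => (σ n).1 := by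
    apply monotone_nat_of_le_succ
    intro n
    rcases hs1 n with h | ⟨y, -, -, h⟩
    · exact h.ge
    · exact (Set.subset_insert _ _).trans h.ge
  have hmono2 : Monotone fun n => (σ n).2 := by
    apply monotone_nat_of_le_succ
    intro n
    rcases hs2 n with h | ⟨y, -, -, h⟩
    · exact h.ge
    · exact (Set.subset_insert _ _).trans h.ge
  have hfin : ∀ n, (σ n).1.Finite ∧ (σ n).2.Finite ∧ (σ n).1 ⊆ D ∧ (σ n).2 ⊆ D ∧
      ∀ x ∈ (σ n).1, x ∉ (σ n).2 := by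
    intro n
    induction n with
    | zero => simp [hσ0]
    | succ n ih =>
      obtain ⟨i1, i2, i3, i4, i5⟩ := ih
      rcases hσ n with ⟨h, -⟩ | ⟨y, hyD, -, h3, h4, -, h⟩ | ⟨y, hyD, -, h3, h4, -, h⟩ | ⟨h, -⟩
      · rw [h]; exact ⟨i1, i2, i3, i4, i5⟩
      · rw [h]
        refine ⟨i1.insert _, i2, Set.insert_subset hyD i3, i4, ?_⟩
        rintro x (rfl | hx)
        · exact h4
        · exact i5 x hx
      · rw [h]
        refine ⟨i1, i2.insert _, i3, Set.insert_subset hyD i4, ?_⟩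
        rintro x hx (rfl | hx')
        · exact h3 hx
        · exact i5 x hx hx'
      · rw [h]; exact ⟨i1, i2, i3, i4, i5⟩
  refine ⟨⋃ n, (σ n).1, ⋃ n, (σ n).2, Set.iUnion_subset fun n => (hfin n).2.2.1,
    Set.iUnion_subset fun n => (hfin n).2.2.2.1, ?_, ?_, ?_, ?_⟩
  · intro x hx hx'
    obtain ⟨n, hn⟩ := Set.mem_iUnion.1 hx
    obtain ⟨m, hm⟩ := Set.mem_iUnion.1 hx'
    exact (hfin (max n m)).2.2.2.2 x (hmono1 (le_max_left n m) hn)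
      (hmono2 (le_max_right n m) hm)
  · exact kp_of_steps hG (fun n => (σ n).1) (by simp [hσ0]) hs1
  · exact skp_of_rv (kp_of_steps (G := P4.rv G) hG (fun n => (σ n).2) (by simp [hσ0]) hs2)
  · intro v hv hv1 hv2
    rw [hf] at hv
    obtain ⟨n, rfl⟩ := hv
    have hc1 : f n ∉ Out1 G (σ n).1 := by
      rintro (h | ⟨s, hs, h⟩)
      · exact hv1 (Or.inl (Set.mem_iUnion.2 ⟨n, h⟩))
      · exact hv1 (Or.inr ⟨s, Set.mem_iUnion.2 ⟨n, hs⟩, h⟩)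
    have hc2 : f n ∉ In1 G (σ n).2 := by
      rintro (h | ⟨s, hs, h⟩)
      · exact hv2 (Or.inl (Set.mem_iUnion.2 ⟨n, h⟩))
      · exact hv2 (Or.inr ⟨s, Set.mem_iUnion.2 ⟨n, hs⟩, h⟩)
    rcases hσ n with ⟨-, h | h⟩ | ⟨y, -, hy, -, -, -, h⟩ | ⟨y, -, hy, -, -, -, h⟩ | ⟨-, h1, h2⟩
    · exact absurd h hc1
    · exact absurd h hc2
    · exfalso
      have hyS : y ∈ ⋃ n, (σ n).1 := Set.mem_iUnion.2 ⟨n + 1, by rw [h]; exact Or.inl rfl⟩
      rcases hy with rfl | hy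
      · exact hv1 (Or.inl hyS)
      · exact hv1 (Or.inr ⟨y, hyS, hy⟩)
    · exfalso
      have hyS : y ∈ ⋃ n, (σ n).2 := Set.mem_iUnion.2 ⟨n + 1, by rw [h]; exact Or.inl rfl⟩
      rcases hy with rfl | hy
      · exact hv2 (Or.inl hyS)
      · exact hv2 (Or.inr ⟨y, hyS, hy⟩)
    · refine ⟨⟨(σ n).1, (hfin n).1, Set.subset_iUnion (fun n => (σ n).1) n, ?_⟩,
        ⟨(σ n).2, (hfin n).2.1, Set.subset_iUnion (fun n => (σ n).2) n, ?_⟩⟩
      · intro u hu huv huT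
        refine h1 u hu huv (fun h => hc1 (Or.inr ⟨u, h, huv⟩)) fun h => huT ?_
        exact Set.mem_iUnion.2 ⟨n, h⟩
      · intro u hu huv huS
        refine h2 u hu huv (fun h => huS ?_) (fun h => hc2 (Or.inr ⟨u, h, huv⟩))
        exact Set.mem_iUnion.2 ⟨n, h⟩

end Pool.Agent.Lib.MP_9317e9_co.Cn
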