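import Mathlib
import Pool.Agent.Lib.MP_9317e9_co.Cn.Harmless

set_option autoImplicit false

universe u

namespace Pool.Agent.Lib.MP_9317e9_co.Cn

open Pool.Agent.Lib.MP_9317e9_co

variable {V : Type u}

lemma exists_rec {α : Type*} (R : (n : ℕ) → ((m : ℕ) → m < n → α) → α → Prop)
    (h : ∀ n p, ∃ a, R n p a) : ∃ g : ℕ → α, ∀ n, R n (fun m _ => g m) (g n) := by
  classical
  choose F hF using h
  let g : ℕ → α := WellFounded.fix (C := fun _ => α) Nat.lt_wfRel.wf (fun n p => F n p)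
  have hg : ∀ n, g n = F n (fun m _ => g m) := fun n => WellFounded.fix_eq _ _ n
  refine ⟨g, fun n => ?_⟩
  have := hF n (fun m _ => g m)
  rw [← hg n] at this
  exact this

/-- rule of the last stage: protect the oldest neighbour -/
def FStep (G : Digraph V) (f : ℕ → V) (n : ℕ) (p : (m : ℕ) → m < n → Option Bool)
    (a : Option Bool) : Prop :=
  ((∃ m, ∃ h : m < n, (p m h = some true ∧ (f m = f n ∨ G.Adj (f m) (f n))) ∨
      (p m h = some false ∧ (f m = f n ∨ G.Adj (f n) (f m)))) ∧ a = none) ∨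
  ((¬ ∃ m, ∃ h : m < n, (p m h = some true ∧ (f m = f n ∨ G.Adj (f m) (f n))) ∨
      (p m h = some false ∧ (f m = f n ∨ G.Adj (f n) (f m)))) ∧
    ∃ m, ∃ h : m < n, ((p m h = some true ∧ G.Adj (f n) (f m)) ∨
      (p m h = some false ∧ G.Adj (f m) (f n))) ∧
      (∀ k, ∀ hk : k < m, ¬ ((p k (hk.trans h) = some true ∧ G.Adj (f n) (f k)) ∨
      (p k (hk.trans h) = some false ∧ G.Adj (f k) (f n)))) ∧ a = (p m h).map not) ∨
  ((¬ ∃ m, ∃ h : m < n, (p m h = some true ∧ (f m = f n ∨ G.Adj (f m) (f n))) ∨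
      (p m h = some false ∧ (f m = f n ∨ G.Adj (f n) (f m)))) ∧
    (∀ m, ∀ h : m < n, ¬ ((p m h = some true ∧ G.Adj (f n) (f m)) ∨
      (p m h = some false ∧ G.Adj (f m) (f n)))) ∧ a = some true)

lemma exists_fstep (G : Digraph V) (f : ℕ → V) (n : ℕ) (p : (m : ℕ) → m < n → Option Bool) :
    ∃ a, FStep G f n p a := by
  classical
  by_cases hc : ∃ m, ∃ h : m < n, (p m h = some true ∧ (f m = f n ∨ G.Adj (f m) (f n))) ∨
      (p m h = some false ∧ (f m = f n ∨ G.Adj (f n) (f m)))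
  · exact ⟨none, Or.inl ⟨hc, rfl⟩⟩
  by_cases hn : ∃ m, ∃ h : m < n, ((p m h = some true ∧ G.Adj (f n) (f m)) ∨
      (p m h = some false ∧ G.Adj (f m) (f n)))
  · obtain ⟨h, h2⟩ := Nat.find_spec hn
    refine ⟨(p (Nat.find hn) h).map not, Or.inr (Or.inl ⟨hc, Nat.find hn, h, h2, ?_, rfl⟩)⟩
    intro k hk hk'
    exact Nat.find_min hn hk ⟨hk.trans h, hk'⟩
  · push Not at hn
    refine ⟨some true, Or.inr (Or.inr ⟨hc, ?_, rfl⟩)⟩
    intro m h hh
    rcases hh with ⟨h1, h2⟩ | ⟨h1, h2⟩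
    · exact (hn m h).1 h1 h2
    · exact (hn m h).2 h1 h2

/-- the last stage -/
lemma exists_final {G : Digraph V} (hG : ∀ v, ¬ G.Adj v v) {D : Set V} (hD : D.Countable)
    (hpair : ∀ s ∈ D, ∀ w ∈ D, s ≠ w →
      {u | u ∈ D ∧ (G.Adj u s ∧ ¬ G.Adj s u) ∧ (G.Adj w u ∧ ¬ G.Adj u w)}.Finite) :
    ∃ S T : Set V, S ⊆ D ∧ T ⊆ D ∧ (∀ x ∈ S, x ∉ T) ∧ KP G S ∧ SKP G T ∧
      ∀ v ∈ D, v ∈ Out1 G S ∨ v ∈ In1 G T := by
  classical
  rcases D.eq_empty_or_nonempty with rfl | hne
  · refine ⟨∅, ∅, le_rfl, le_rfl, by simp, ?_, ?_, by simp⟩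
    · intro U hU
      rw [Set.subset_empty_iff] at hU
      subst hU
      exact ⟨∅, le_rfl, by simp [Indep], by simp⟩
    · intro U hU
      rw [Set.subset_empty_iff] at hU
      subst hU
      exact ⟨∅, le_rfl, by simp [Indep], by simp⟩
  obtain ⟨f, hf⟩ := hD.exists_eq_range hne
  have hfD : ∀ n, f n ∈ D := fun n => by rw [hf]; exact ⟨n, rfl⟩
  obtain ⟨g, hg⟩ := exists_rec (α := Option Bool) (FStep G f) (exists_fstep G f)
  -- consequences
  have hcov : ∀ n, g n ≠ none → ∀ m < n,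
      ¬ (g m = some true ∧ (f m = f n ∨ G.Adj (f m) (f n))) ∧
      ¬ (g m = some false ∧ (f m = f n ∨ G.Adj (f n) (f m))) := by
    intro n hn m hm
    rcases hg n with ⟨-, h⟩ | ⟨h, -⟩ | ⟨h, -⟩
    · exact absurd h hn
    · exact ⟨fun h' => h ⟨m, hm, Or.inl h'⟩, fun h' => h ⟨m, hm, Or.inr h'⟩⟩
    · exact ⟨fun h' => h ⟨m, hm, Or.inl h'⟩, fun h' => h ⟨m, hm, Or.inr h'⟩⟩
  have hinj : ∀ n m, g n ≠ none → g m ≠ none → f n = f m → n = m := by
    have key : ∀ n m, g n ≠ none → g m ≠ none → f n = f m → ¬ m < n := by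
      intro n m hn hm h hlt
      have h1 := hcov n hn m hlt
      rcases hgm : g m with _ | b
      · exact hm hgm
      · cases b
        · exact h1.2 ⟨hgm, Or.inl h.symm⟩
        · exact h1.1 ⟨hgm, Or.inl h.symm⟩
    intro n m hn hm h
    have h1 := key n m hn hm h
    have h2 := key m n hm hn h.symm
    omega
  have hnb : ∀ n i, g n = some true → i < n → g i = some true → G.Adj (f n) (f i) →
      ∃ m < i, g m = some false ∧ G.Adj (f m) (f n) := by
    intro n i hn hi hgi hadj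
    rcases hg n with ⟨-, h⟩ | ⟨-, m, hm, h1, h2, h3⟩ | ⟨-, h, -⟩
    · rw [hn] at h; exact absurd h (by simp)
    · have hmi : m ≤ i := by
        by_contra hlt
        push Not at hlt
        exact h2 i hlt (Or.inl ⟨hgi, hadj⟩)
      have hgm : g m = some false := by
        rw [hn] at h3
        rcases h1 with ⟨h1, -⟩ | ⟨h1, -⟩
        · rw [h1] at h3; simp at h3
        · exact h1
      have hne : m ≠ i := by
        rintro rfl
        rw [hgi] at hgm; simp at hgm
      rcases h1 with ⟨h1, -⟩ | ⟨-, h1⟩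
      · have h1 : g m = some true := h1
        rw [hgm] at h1; simp at h1
      · exact ⟨m, by omega, hgm, h1⟩
    · exact absurd (Or.inl ⟨hgi, hadj⟩) (h i hi)
  have hnb' : ∀ n i, g n = some false → i < n → g i = some false → G.Adj (f i) (f n) →
      ∃ m < i, g m = some true ∧ G.Adj (f n) (f m) := by
    intro n i hn hi hgi hadj
    rcases hg n with ⟨-, h⟩ | ⟨-, m, hm, h1, h2, h3⟩ | ⟨-, h, -⟩
    · rw [hn] at h; exact absurd h (by simp)
    · have hmi : m ≤ i := by
        by_contra hlt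
        push Not at hlt
        exact h2 i hlt (Or.inr ⟨hgi, hadj⟩)
      have hgm : g m = some true := by
        rw [hn] at h3
        rcases h1 with ⟨h1, -⟩ | ⟨h1, -⟩
        · exact h1
        · rw [h1] at h3; simp at h3
      have hne : m ≠ i := by
        rintro rfl
        rw [hgi] at hgm; simp at hgm
      rcases h1 with ⟨-, h1⟩ | ⟨h1, -⟩
      · exact ⟨m, by omega, hgm, h1⟩
      · have h1 : g m = some false := h1
        rw [hgm] at h1; simp at h1
    · exact absurd (Or.inr ⟨hgi, hadj⟩) (h i hi)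
  let S : Set V := {x | ∃ n, f n = x ∧ g n = some true}
  let T : Set V := {x | ∃ n, f n = x ∧ g n = some false}
  have hSD : S ⊆ D := by rintro _ ⟨n, rfl, -⟩; exact hfD n
  have hTD : T ⊆ D := by rintro _ ⟨n, rfl, -⟩; exact hfD n
  -- time
  let τ : V → ℕ := fun x => sInf {n | f n = x ∧ g n ≠ none}
  have hτ : ∀ n, g n ≠ none → τ (f n) = n := by
    intro n hn
    have hne' : {m | f m = f n ∧ g m ≠ none}.Nonempty := ⟨n, rfl, hn⟩
    have := Nat.sInf_mem hne'
    exact hinj _ _ this.2 hn this.1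
  refine ⟨S, T, hSD, hTD, ?_, ?_, ?_, ?_⟩
  · rintro _ ⟨n, rfl, hn⟩ ⟨m, hmn, hm⟩
    have : n = m := hinj n m (by rw [hn]; simp) (by rw [hm]; simp) hmn.symm
    subst this
    rw [hn] at hm; simp at hm
  · apply kp_of_time τ
    · rintro _ ⟨i, rfl, hi⟩ _ ⟨n, rfl, hn⟩ hadj
      rw [hτ i (by rw [hi]; simp), hτ n (by rw [hn]; simp)]
      by_contra hle
      push Not at hle
      rcases Nat.eq_or_lt_of_le hle with rfl | hlt
      · exact hG _ hadj
      · exact (hcov i (by rw [hi]; simp) n hlt).1 ⟨hn, Or.inr hadj⟩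
    · rintro _ ⟨i, rfl, hi⟩
      have hfinU : (⋃ m ∈ Set.Iio i, {u | (f m ≠ f i) ∧ u ∈ D ∧
          (G.Adj u (f i) ∧ ¬ G.Adj (f i) u) ∧ (G.Adj (f m) u ∧ ¬ G.Adj u (f m))}).Finite := by
        apply Set.Finite.biUnion (Set.finite_Iio i)
        intro m _
        by_cases hmi : f m = f i
        · apply Set.Finite.subset Set.finite_empty
          rintro u ⟨h, -⟩; exact absurd hmi h
        · exact (hpair (f i) (hfD i) (f m) (hfD m) (fun h => hmi h.symm)).subset
            fun u hu => hu.2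
      apply hfinU.subset
      rintro _ ⟨⟨n, rfl, hn⟩, hadj⟩
      have hin : i < n := by
        by_contra hle
        push Not at hle
        rcases Nat.eq_or_lt_of_le hle with rfl | hlt
        · exact hG _ hadj
        · exact (hcov i (by rw [hi]; simp) n hlt).1 ⟨hn, Or.inr hadj⟩
      obtain ⟨m, hmi, hm, hmadj⟩ := hnb n i hn hin hi hadj
      refine Set.mem_biUnion (x := m) hmi ⟨?_, hfD n, ⟨hadj, ?_⟩, hmadj, ?_⟩
      · intro h
        have := hinj m i (by rw [hm]; simp) (by rw [hi]; simp) h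
        omega
      · intro h
        exact (hcov n (by rw [hn]; simp) i hin).1 ⟨hi, Or.inr h⟩
      · intro h
        exact (hcov n (by rw [hn]; simp) m (by omega)).2 ⟨hm, Or.inr h⟩
  · apply skp_of_rv
    apply kp_of_time τ
    · rintro _ ⟨i, rfl, hi⟩ _ ⟨n, rfl, hn⟩ hadj
      have hadj : G.Adj (f i) (f n) := hadj
      rw [hτ i (by rw [hi]; simp), hτ n (by rw [hn]; simp)]
      by_contra hle
      push Not at hle
      rcases Nat.eq_or_lt_of_le hle with rfl | hlt
      · exact hG _ hadj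
      · exact (hcov i (by rw [hi]; simp) n hlt).2 ⟨hn, Or.inr hadj⟩
    · rintro _ ⟨i, rfl, hi⟩
      have hfinU : (⋃ m ∈ Set.Iio i, {u | (f m ≠ f i) ∧ u ∈ D ∧
          (G.Adj u (f m) ∧ ¬ G.Adj (f m) u) ∧ (G.Adj (f i) u ∧ ¬ G.Adj u (f i))}).Finite := by
        apply Set.Finite.biUnion (Set.finite_Iio i)
        intro m _
        by_cases hmi : f m = f i
        · apply Set.Finite.subset Set.finite_empty
          rintro u ⟨h, -⟩; exact absurd hmi h
        · exact (hpair (f m) (hfD m) (f i) (hfD i) hmi).subset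
            fun u hu => hu.2
      apply hfinU.subset
      rintro _ ⟨⟨n, rfl, hn⟩, hadj⟩
      have hadj : G.Adj (f i) (f n) := hadj
      have hin : i < n := by
        by_contra hle
        push Not at hle
        rcases Nat.eq_or_lt_of_le hle with rfl | hlt
        · exact hG _ hadj
        · exact (hcov i (by rw [hi]; simp) n hlt).2 ⟨hn, Or.inr hadj⟩
      obtain ⟨m, hmi, hm, hmadj⟩ := hnb' n i hn hin hi hadj
      refine Set.mem_biUnion (x := m) hmi ⟨?_, hfD n, ⟨hmadj, ?_⟩, hadj, ?_⟩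
      · intro h
        have := hinj m i (by rw [hm]; simp) (by rw [hi]; simp) h
        omega
      · intro h
        exact (hcov n (by rw [hn]; simp) m (by omega)).1 ⟨hm, Or.inr h⟩
      · intro h
        exact (hcov n (by rw [hn]; simp) i hin).2 ⟨hi, Or.inr h⟩
  · intro v hv
    rw [hf] at hv
    obtain ⟨n, rfl⟩ := hv
    rcases hgn : g n with _ | b
    · rcases hg n with ⟨⟨m, hm, h | h⟩, -⟩ | ⟨-, m, hm, h1, -, h3⟩ | ⟨-, -, h⟩
      · left
        rcases h.2 with h' | h'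
        · exact Or.inl ⟨m, h', h.1⟩
        · exact Or.inr ⟨f m, ⟨m, rfl, h.1⟩, h'⟩
      · right
        rcases h.2 with h' | h'
        · exact Or.inl ⟨m, h', h.1⟩
        · exact Or.inr ⟨f m, ⟨m, rfl, h.1⟩, h'⟩
      · exfalso
        rw [hgn] at h3
        rcases h1 with ⟨h1, -⟩ | ⟨h1, -⟩
        · rw [h1] at h3; simp at h3
        · rw [h1] at h3; simp at h3
      · exfalso; rw [hgn] at h; simp at h
    · cases b
      · exact Or.inr (Or.inl ⟨n, rfl, hgn⟩)
      · exact Or.inl (Or.inl ⟨n, rfl, hgn⟩)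

end Pool.Agent.Lib.MP_9317e9_co.Cn
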