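import Mathlib
import Pool.Agent.Lib.MP_9317e9_co.Cn.Final

set_option autoImplicit false

universe u

namespace Pool.Agent.Lib.MP_9317e9_co.Cn

open Pool.Agent.Lib.MP_9317e9_co

variable {V : Type u}

/-- The vertices of `U ∩ X` are dominated `k` times, by finite sets with labels `0, ..., 2k-1`. -/
def Dom (G : Digraph V) (X U : Set V) (c : V → ℕ) (k : ℕ) : Prop :=
  ∀ v ∈ U, v ∈ X → ∀ j < k,
    (∃ F : Set V, F.Finite ∧ (∀ s ∈ F, s ∈ X ∧ s ∉ U ∧ c s = 2 * j ∧ ∀ u ∈ U, ¬ G.Adj s u) ∧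
      ∀ u ∈ U, u ∈ X → G.Adj u v → ∃ s ∈ F, G.Adj u s) ∧
    (∃ F : Set V, F.Finite ∧ (∀ t ∈ F, t ∈ X ∧ t ∉ U ∧ c t = 2 * j + 1 ∧ ∀ u ∈ U, ¬ G.Adj u t) ∧
      ∀ u ∈ U, u ∈ X → G.Adj v u → ∃ t ∈ F, G.Adj t u)

/-- the condition with functions -/
def CFun (G : Digraph V) (X : Set V) (n : ℕ) : Prop :=
  ∀ p q : Fin n → V, (∀ i, p i ∈ X) → (∀ i, q i ∈ X) → Function.Injective p →
    Function.Injective q → (∀ i j, p i ≠ q j) →
    {u | u ∈ X ∧ (∀ i, G.Adj u (p i) ∧ ¬ G.Adj (p i) u) ∧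
      ∀ i, G.Adj (q i) u ∧ ¬ G.Adj u (q i)}.Finite

lemma dom_step {G : Digraph V} (hG : ∀ v, ¬ G.Adj v v) {X U : Set V} (hX : X.Countable)
    {c : V → ℕ} {k : ℕ} (h : Dom G X U c k) :
    ∃ (S T : Set V) (c' : V → ℕ), S ⊆ U ∧ T ⊆ U ∧ (∀ x ∈ S, x ∉ T) ∧ KP G S ∧ SKP G T ∧
      Dom G X (U \ (Out1 G S ∪ In1 G T)) c' (k + 1) := by
  classical
  obtain ⟨S, T, hSD, hTD, hST, hS, hT, hdom⟩ := exists_harmless hG (D := U ∩ X)
    (hX.mono Set.inter_subset_right)
  refine ⟨S, T, fun v => if v ∈ S then 2 * k else if v ∈ T then 2 * k + 1 else c v,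
    hSD.trans Set.inter_subset_left, hTD.trans Set.inter_subset_left, hST, hS, hT, ?_⟩
  rintro v ⟨hvU, hvc⟩ hvX j hj
  have hv1 : v ∉ Out1 G S := fun h => hvc (Or.inl h)
  have hv2 : v ∉ In1 G T := fun h => hvc (Or.inr h)
  rcases Nat.lt_succ_iff_lt_or_eq.1 hj with hj | rfl
  · obtain ⟨⟨F, hF1, hF2, hF3⟩, ⟨E, hE1, hE2, hE3⟩⟩ := h v hvU hvX j hj
    refine ⟨⟨F, hF1, ?_, fun u hu => hF3 u hu.1⟩, ⟨E, hE1, ?_, fun u hu => hE3 u hu.1⟩⟩
    · intro s hs
      obtain ⟨h1, h2, h3, h4⟩ := hF2 s hs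
      have hsS : s ∉ S := fun h => h2 (hSD h).1
      have hsT : s ∉ T := fun h => h2 (hTD h).1
      refine ⟨h1, fun h => h2 h.1, ?_, fun u hu => h4 u hu.1⟩
      simp only [hsS, hsT, if_false]
      exact h3
    · intro s hs
      obtain ⟨h1, h2, h3, h4⟩ := hE2 s hs
      have hsS : s ∉ S := fun h => h2 (hSD h).1
      have hsT : s ∉ T := fun h => h2 (hTD h).1
      refine ⟨h1, fun h => h2 h.1, ?_, fun u hu => h4 u hu.1⟩
      simp only [hsS, hsT, if_false]
      exact h3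
  · obtain ⟨⟨F, hF1, hF2, hF3⟩, ⟨E, hE1, hE2, hE3⟩⟩ := hdom v ⟨hvU, hvX⟩ hv1 hv2
    refine ⟨⟨F, hF1, ?_, ?_⟩, ⟨E, hE1, ?_, ?_⟩⟩
    · intro s hs
      refine ⟨(hSD (hF2 hs)).2, fun h => h.2 (Or.inl (Or.inl (hF2 hs))), ?_, ?_⟩
      · simp only [hF2 hs, if_true]
      · intro u hu hsu
        exact hu.2 (Or.inl (Or.inr ⟨s, hF2 hs, hsu⟩))
    · intro u hu huX huv
      exact hF3 u ⟨hu.1, huX⟩ huv fun h => hu.2 (Or.inr (Or.inl h))
    · intro s hs
      have hsS : s ∉ S := fun h => hST s h (hE2 hs)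
      refine ⟨(hTD (hE2 hs)).2, fun h => h.2 (Or.inr (Or.inl (hE2 hs))), ?_, ?_⟩
      · simp only [hsS, hE2 hs, if_true, if_false]
      · intro u hu hsu
        exact hu.2 (Or.inr (Or.inr ⟨s, hE2 hs, hsu⟩))
    · intro u hu huX huv
      exact hE3 u ⟨hu.1, huX⟩ huv fun h => hu.2 (Or.inl (Or.inl h))

lemma dom_pair {G : Digraph V} {X U : Set V} {c : V → ℕ} {k : ℕ} (h : Dom G X U c k)
    (hC : CFun G X (k + 1)) (s : V) (hs : s ∈ U ∩ X) (w : V) (hw : w ∈ U ∩ X) (hsw : s ≠ w) :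
    {u | u ∈ U ∩ X ∧ (G.Adj u s ∧ ¬ G.Adj s u) ∧ (G.Adj w u ∧ ¬ G.Adj u w)}.Finite := by
  classical
  choose! F hF using fun (j : ℕ) (hj : j < k) => (h s hs.1 hs.2 j hj).1
  choose! E hE using fun (j : ℕ) (hj : j < k) => (h w hw.1 hw.2 j hj).2
  let Φ : Fin (k + 1) → Set V := Fin.cases {s} (fun j : Fin k => F j)
  let Ψ : Fin (k + 1) → Set V := Fin.cases {w} (fun j : Fin k => E j)
  have hΦ : {p : Fin (k + 1) → V | ∀ i, p i ∈ Φ i}.Finite := by
    apply Set.Finite.pi'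
    intro i
    refine Fin.cases ?_ (fun j => ?_) i
    · exact Set.finite_singleton s
    · exact (hF j j.2).1
  have hΨ : {p : Fin (k + 1) → V | ∀ i, p i ∈ Ψ i}.Finite := by
    apply Set.Finite.pi'
    intro i
    refine Fin.cases ?_ (fun j => ?_) i
    · exact Set.finite_singleton w
    · exact (hE j j.2).1
  have hbig : (⋃ p ∈ {p : Fin (k + 1) → V | ∀ i, p i ∈ Φ i},
      ⋃ q ∈ {q : Fin (k + 1) → V | ∀ i, q i ∈ Ψ i},
      {u | u ∈ X ∧ (∀ i, G.Adj u (p i) ∧ ¬ G.Adj (p i) u) ∧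
        ∀ i, G.Adj (q i) u ∧ ¬ G.Adj u (q i)}).Finite := by
    apply Set.Finite.biUnion hΦ
    intro p hp
    apply Set.Finite.biUnion hΨ
    intro q hq
    have hp0 : p 0 = s := hp 0
    have hq0 : q 0 = w := hq 0
    have hpS : ∀ j : Fin k, p j.succ ∈ X ∧ p j.succ ∉ U ∧ c (p j.succ) = 2 * (j : ℕ) := by
      intro j
      have h1 : p j.succ ∈ F j := hp j.succ
      obtain ⟨a1, a2, a3, -⟩ := (hF j j.2).2.1 _ h1
      exact ⟨a1, a2, a3⟩
    have hqS : ∀ j : Fin k, q j.succ ∈ X ∧ q j.succ ∉ U ∧ c (q j.succ) = 2 * (j : ℕ) + 1 := by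
      intro j
      have h1 : q j.succ ∈ E j := hq j.succ
      obtain ⟨a1, a2, a3, -⟩ := (hE j j.2).2.1 _ h1
      exact ⟨a1, a2, a3⟩
    apply hC p q
    · intro i
      refine Fin.cases ?_ (fun j => ?_) i
      · rw [hp0]; exact hs.2
      · exact (hpS j).1
    · intro i
      refine Fin.cases ?_ (fun j => ?_) i
      · rw [hq0]; exact hw.2
      · exact (hqS j).1
    · intro i i'
      refine Fin.cases ?_ (fun j => ?_) i
      · refine Fin.cases ?_ (fun j' => ?_) i'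
        · intro _; rfl
        · intro he
          exfalso
          apply (hpS j').2.1
          rw [← he, hp0]; exact hs.1
      · refine Fin.cases ?_ (fun j' => ?_) i'
        · intro he
          exfalso
          apply (hpS j).2.1
          rw [he, hp0]; exact hs.1
        · intro he
          have h1 := (hpS j).2.2
          rw [he, (hpS j').2.2] at h1
          have : (j : ℕ) = j' := by omega
          rw [Fin.ext this]
    · intro i i'
      refine Fin.cases ?_ (fun j => ?_) i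
      · refine Fin.cases ?_ (fun j' => ?_) i'
        · intro _; rfl
        · intro he
          exfalso
          apply (hqS j').2.1
          rw [← he, hq0]; exact hw.1
      · refine Fin.cases ?_ (fun j' => ?_) i'
        · intro he
          exfalso
          apply (hqS j).2.1
          rw [he, hq0]; exact hw.1
        · intro he
          have h1 := (hqS j).2.2
          rw [he, (hqS j').2.2] at h1
          have : (j : ℕ) = j' := by omega
          rw [Fin.ext this]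
    · intro i i'
      refine Fin.cases ?_ (fun j => ?_) i
      · refine Fin.cases ?_ (fun j' => ?_) i'
        · rw [hp0, hq0]; exact hsw
        · intro he
          apply (hqS j').2.1
          rw [← he, hp0]; exact hs.1
      · refine Fin.cases ?_ (fun j' => ?_) i'
        · intro he
          apply (hpS j).2.1
          rw [he, hq0]; exact hw.1
        · intro he
          have h1 := (hpS j).2.2
          rw [he, (hqS j').2.2] at h1
          omega
  apply hbig.subset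
  rintro u ⟨⟨huU, huX⟩, hus, hwu⟩
  have h1 : ∀ j : Fin k, ∃ x ∈ F j, G.Adj u x ∧ ¬ G.Adj x u := by
    intro j
    obtain ⟨x, hx, hux⟩ := (hF j j.2).2.2 u huU huX hus.1
    exact ⟨x, hx, hux, ((hF j j.2).2.1 x hx).2.2.2 u huU⟩
  have h2 : ∀ j : Fin k, ∃ x ∈ E j, G.Adj x u ∧ ¬ G.Adj u x := by
    intro j
    obtain ⟨x, hx, hux⟩ := (hE j j.2).2.2 u huU huX hwu.1
    exact ⟨x, hx, hux, ((hE j j.2).2.1 x hx).2.2.2 u huU⟩
  choose a ha1 ha2 using h1
  choose b hb1 hb2 using h2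
  simp only [Set.mem_iUnion]
  refine ⟨Fin.cases s a, ?_, Fin.cases w b, ?_, huX, ?_, ?_⟩
  · intro i
    refine Fin.cases ?_ (fun j => ?_) i
    · exact rfl
    · exact ha1 j
  · intro i
    refine Fin.cases ?_ (fun j => ?_) i
    · exact rfl
    · exact hb1 j
  · intro i
    refine Fin.cases ?_ (fun j => ?_) i
    · exact hus
    · exact ha2 j
  · intro i
    refine Fin.cases ?_ (fun j => ?_) i
    · exact hwu
    · exact hb2 j

lemma main_aux {G : Digraph V} (hG : ∀ v, ¬ G.Adj v v) {X Z : Set V} (hX : X.Countable)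
    (hZ : ∀ U ⊆ Z, Solv G U) (n : ℕ) (hC : CFun G X (n + 1)) :
    ∀ (m k : ℕ) (U : Set V) (c : V → ℕ), k + m = n → Dom G X U c k →
      (∀ v ∈ U, v ∈ X ∨ v ∈ Z) → Solv G U := by
  intro m
  induction m with
  | zero =>
    intro k U c hk hD hU
    have hk : k = n := by omega
    subst hk
    obtain ⟨S, T, hS1, hT1, hST, hS, hT, hcov⟩ := exists_final hG (D := U ∩ X)
      (hX.mono Set.inter_subset_right) (dom_pair hD hC)
    refine solv_layer (hS1.trans Set.inter_subset_left) (hT1.trans Set.inter_subset_left) hST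
      hS hT (hZ _ ?_)
    rintro v ⟨hvU, hv⟩
    rcases hU v hvU with h | h
    · exact absurd (hcov v ⟨hvU, h⟩) hv
    · exact h
  | succ m ih =>
    intro k U c hk hD hU
    obtain ⟨S, T, c', hS1, hT1, hST, hS, hT, hD'⟩ := dom_step hG hX hD
    exact solv_layer hS1 hT1 hST hS hT (ih (k + 1) _ c' (by omega) hD' fun v hv => hU v hv.1)

lemma solv_of_cfun {G : Digraph V} (hG : ∀ v, ¬ G.Adj v v) {X Z : Set V} (hX : X.Countable)
    (hZ : ∀ U ⊆ Z, Solv G U) (n : ℕ) (hC : CFun G X (n + 1)) :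
    ∀ U ⊆ X ∪ Z, Solv G U := by
  intro U hU
  refine main_aux hG hX hZ n hC n 0 U (fun _ => 0) (by omega) ?_ fun v hv => hU hv
  intro v _ _ j hj
  exact absurd hj (Nat.not_lt_zero j)

/-- the condition with finite sets -/
def CFin (G : Digraph V) (X : Set V) (n : ℕ) : Prop :=
  ∀ P Q : Finset V, (P : Set V) ⊆ X → (Q : Set V) ⊆ X → P.card = n → Q.card = n →
    Disjoint P Q → {u | u ∈ X ∧ (∀ s ∈ P, G.Adj u s ∧ ¬ G.Adj s u) ∧
      ∀ t ∈ Q, G.Adj t u ∧ ¬ G.Adj u t}.Finite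

lemma cfun_of_cfin {G : Digraph V} {X : Set V} {n : ℕ} (h : CFin G X n) : CFun G X n := by
  classical
  intro p q hp hq hpi hqi hpq
  refine (h (Finset.univ.image p) (Finset.univ.image q) ?_ ?_ ?_ ?_ ?_).subset ?_
  · intro x hx
    simp only [Finset.coe_image, Finset.coe_univ, Set.image_univ, Set.mem_range] at hx
    obtain ⟨i, rfl⟩ := hx
    exact hp i
  · intro x hx
    simp only [Finset.coe_image, Finset.coe_univ, Set.image_univ, Set.mem_range] at hx
    obtain ⟨i, rfl⟩ := hx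
    exact hq i
  · rw [Finset.card_image_of_injective _ hpi]; simp
  · rw [Finset.card_image_of_injective _ hqi]; simp
  · rw [Finset.disjoint_left]
    intro x hx hx'
    simp only [Finset.mem_image, Finset.mem_univ, true_and] at hx hx'
    obtain ⟨i, rfl⟩ := hx
    obtain ⟨j, hj⟩ := hx'
    exact hpq i j hj.symm
  · rintro u ⟨hu, h1, h2⟩
    refine ⟨hu, ?_, ?_⟩
    · intro s hs
      simp only [Finset.mem_image, Finset.mem_univ, true_and] at hs
      obtain ⟨i, rfl⟩ := hs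
      exact h1 i
    · intro s hs
      simp only [Finset.mem_image, Finset.mem_univ, true_and] at hs
      obtain ⟨i, rfl⟩ := hs
      exact h2 i

lemma exists_cfun {G : Digraph V} {X : Set V} {n : ℕ} (h : CFin G X n) :
    ∃ m, CFun G X (m + 1) := by
  rcases n with _ | n
  · refine ⟨0, ?_⟩
    intro p q _ _ _ _ _
    have := h ∅ ∅ (by simp) (by simp) rfl rfl (by simp)
    refine this.subset ?_
    rintro u ⟨hu, -, -⟩
    exact ⟨hu, by simp, by simp⟩
  · exact ⟨n, cfun_of_cfin h⟩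

theorem main {G : Digraph V} (hG : ∀ v, ¬ G.Adj v v) {X Z : Set V} (hXZ : ∀ v, v ∈ X ∨ v ∈ Z)
    (hX : X.Countable) {n : ℕ} (hC : CFin G X n)
    (hZ : ∀ U ⊆ Z, ∃ W ⊆ U, (∃ A, QK G W A) ∧ ∃ B, QS G (U \ W) B) :
    ∃ W : Set V, (∃ A, QK G W A) ∧ ∃ B, QS G Wᶜ B := by
  obtain ⟨m, hm⟩ := exists_cfun hC
  have hZ' : ∀ U ⊆ Z, Solv G U := by
    intro U hU
    obtain ⟨W, hWU, ⟨A, hA⟩, B, hB⟩ := hZ U hU
    exact ⟨W, U \ W, A, B, Set.union_sdiff_cancel hWU, Set.disjoint_sdiff_right, hA, hB⟩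
  obtain ⟨W0, W1, A, B, hW, hd, hA, hB⟩ := solv_of_cfun hG hX hZ' m hm Set.univ
    fun v _ => hXZ v
  have : W1 = W0ᶜ := by
    ext v; constructor
    · intro h h'; exact Set.disjoint_left.1 hd h' h
    · intro h
      have : v ∈ W0 ∪ W1 := hW ▸ Set.mem_univ v
      exact this.resolve_left h
  subst this
  exact ⟨W0, ⟨A, hA⟩, B, hB⟩

end Pool.Agent.Lib.MP_9317e9_co.Cn
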