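import Mathlib
import Pool.Agent.Lib.MP_9317e9_co.Cn.Main

set_option autoImplicit false

universe u

namespace Pool.Agent.Lib.MP_9317e9_co.Cn

open Pool.Agent.Lib.MP_9317e9_co

variable {V : Type u}

/-- `U` can be covered by two disjoint sets `S`, `T ⊆ U`, `S` kernel-perfect and `T`
sink-kernel-perfect -/
def Covd (G : Digraph V) (U : Set V) : Prop :=
  ∃ S T : Set V, S ⊆ U ∧ T ⊆ U ∧ (∀ x ∈ S, x ∉ T) ∧ KP G S ∧ SKP G T ∧
    ∀ v ∈ U, v ∈ Out1 G S ∨ v ∈ In1 G T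

/-- absorbable sets -/
def Abs (G : Digraph V) (X : Set V) : Prop := ∀ U ⊆ X, Covd G U

lemma Abs.mono {G : Digraph V} {X Y : Set V} (h : Abs G Y) (hXY : X ⊆ Y) : Abs G X :=
  fun U hU => h U (hU.trans hXY)

lemma kp_union {G : Digraph V} {S₁ S₂ : Set V} (h₁ : KP G S₁) (h₂ : KP G S₂)
    (h : ∀ v ∈ S₂, v ∉ Out1 G S₁) : KP G (S₁ ∪ S₂) := by
  intro D hD
  obtain ⟨A₂, a1, a2, a3⟩ := h₂ (D ∩ S₂) Set.inter_subset_right
  obtain ⟨A₁, b1, b2, b3⟩ := h₁ {s | s ∈ D ∧ s ∈ S₁ ∧ ¬ ∃ a ∈ A₂, G.Adj a s}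
    (fun s hs => hs.2.1)
  refine ⟨A₁ ∪ A₂, ?_, ?_, ?_⟩
  · rintro x (hx | hx)
    · exact (b1 hx).1
    · exact (a1 hx).1
  · rintro x (hx | hx) y (hy | hy) hxy
    · exact b2 x hx y hy hxy
    · exact h y (a1 hy).2 (Or.inr ⟨x, (b1 hx).2.1, hxy⟩)
    · exact (b1 hy).2.2 ⟨x, hx, hxy⟩
    · exact a2 x hx y hy hxy
  · intro v hv
    rcases hD hv with hv1 | hv2
    · by_cases hd : ∃ a ∈ A₂, G.Adj a v
      · obtain ⟨a, ha, had⟩ := hd
        exact Or.inr ⟨a, Or.inr ha, had⟩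
      · rcases b3 v ⟨hv, hv1, hd⟩ with h' | ⟨a, ha, had⟩
        · exact Or.inl (Or.inl h')
        · exact Or.inr ⟨a, Or.inl ha, had⟩
    · rcases a3 v ⟨hv, hv2⟩ with h' | ⟨a, ha, had⟩
      · exact Or.inl (Or.inr h')
      · exact Or.inr ⟨a, Or.inr ha, had⟩

lemma kp_rv_of_skp {G : Digraph V} {T : Set V} (h : SKP G T) : KP (P4.rv G) T := by
  intro U hU
  obtain ⟨A, h1, h2, h3⟩ := h U hU
  exact ⟨A, h1, fun a ha b hb hab => h2 b hb a ha hab, h3⟩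

lemma skp_union {G : Digraph V} {S₁ S₂ : Set V} (h₁ : SKP G S₁) (h₂ : SKP G S₂)
    (h : ∀ v ∈ S₂, v ∉ In1 G S₁) : SKP G (S₁ ∪ S₂) :=
  skp_of_rv (kp_union (kp_rv_of_skp h₁) (kp_rv_of_skp h₂) h)

lemma covd_layer {G : Digraph V} {U S T : Set V} (hSU : S ⊆ U) (hTU : T ⊆ U)
    (hST : ∀ x ∈ S, x ∉ T) (hS : KP G S) (hT : SKP G T)
    (h : Covd G (U \ (Out1 G S ∪ In1 G T))) : Covd G U := by
  obtain ⟨S', T', h1, h2, h3, h4, h5, h6⟩ := h
  refine ⟨S ∪ S', T ∪ T', Set.union_subset hSU (h1.trans Set.sdiff_subset),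
    Set.union_subset hTU (h2.trans Set.sdiff_subset), ?_, ?_, ?_, ?_⟩
  · rintro x (hx | hx) (hx' | hx')
    · exact hST x hx hx'
    · exact (h2 hx').2 (Or.inl (Or.inl hx))
    · exact (h1 hx).2 (Or.inr (Or.inl hx'))
    · exact h3 x hx hx'
  · exact kp_union hS h4 fun v hv hv' => (h1 hv).2 (Or.inl hv')
  · exact skp_union hT h5 fun v hv hv' => (h2 hv).2 (Or.inr hv')
  · intro v hv
    by_cases hc : v ∈ Out1 G S ∪ In1 G T
    · rcases hc with (hc | ⟨s, hs, hc⟩) | (hc | ⟨s, hs, hc⟩)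
      · exact Or.inl (Or.inl (Or.inl hc))
      · exact Or.inl (Or.inr ⟨s, Or.inl hs, hc⟩)
      · exact Or.inr (Or.inl (Or.inl hc))
      · exact Or.inr (Or.inr ⟨s, Or.inl hs, hc⟩)
    · rcases h6 v ⟨hv, hc⟩ with (hc | ⟨s, hs, hc⟩) | (hc | ⟨s, hs, hc⟩)
      · exact Or.inl (Or.inl (Or.inr hc))
      · exact Or.inl (Or.inr ⟨s, Or.inr hs, hc⟩)
      · exact Or.inr (Or.inl (Or.inr hc))
      · exact Or.inr (Or.inr ⟨s, Or.inr hs, hc⟩)

lemma Abs.union {G : Digraph V} {X Y : Set V} (hX : Abs G X) (hY : Abs G Y) :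
    Abs G (X ∪ Y) := by
  intro U hU
  obtain ⟨S, T, h1, h2, h3, h4, h5, h6⟩ := hX (U ∩ X) Set.inter_subset_right
  refine covd_layer (h1.trans Set.inter_subset_left) (h2.trans Set.inter_subset_left) h3 h4 h5
    (hY _ ?_)
  rintro v ⟨hv, hc⟩
  rcases hU hv with h | h
  · exact absurd (h6 v ⟨hv, h⟩) hc
  · exact h

lemma Abs.iUnion_fin {G : Digraph V} : ∀ (n : ℕ) (Y : Fin n → Set V), (∀ i, Abs G (Y i)) →
    Abs G (⋃ i, Y i) := by
  intro n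
  induction n with
  | zero =>
    intro Y _ U hU
    have hU' : U = ∅ := by
      rw [Set.eq_empty_iff_forall_notMem]
      intro x hx
      obtain ⟨i, -⟩ := Set.mem_iUnion.1 (hU hx)
      exact i.elim0
    subst hU'
    refine ⟨∅, ∅, le_rfl, le_rfl, by simp, ?_, ?_, by simp⟩
    · intro W hW
      rw [Set.subset_empty_iff] at hW
      subst hW
      exact ⟨∅, le_rfl, by simp [Indep], by simp⟩
    · intro W hW
      rw [Set.subset_empty_iff] at hW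
      subst hW
      exact ⟨∅, le_rfl, by simp [Indep], by simp⟩
  | succ n ih =>
    intro Y hY
    refine ((hY 0).union (ih (fun i => Y i.succ) fun i => hY _)).mono ?_
    intro x hx
    obtain ⟨i, hi⟩ := Set.mem_iUnion.1 hx
    rcases Fin.eq_zero_or_eq_succ i with rfl | ⟨j, rfl⟩
    · exact Or.inl hi
    · exact Or.inr (Set.mem_iUnion.2 ⟨j, hi⟩)

lemma Abs.solv {G : Digraph V} {X Z : Set V} (hX : Abs G X) (hZ : ∀ U ⊆ Z, Solv G U) :
    ∀ U ⊆ X ∪ Z, Solv G U := by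
  intro U hU
  obtain ⟨S, T, h1, h2, h3, h4, h5, h6⟩ := hX (U ∩ X) Set.inter_subset_right
  refine solv_layer (h1.trans Set.inter_subset_left) (h2.trans Set.inter_subset_left) h3 h4 h5
    (hZ _ ?_)
  rintro v ⟨hv, hc⟩
  rcases hU hv with h | h
  · exact absurd (h6 v ⟨hv, h⟩) hc
  · exact h

lemma kp_fibres {G : Digraph V} {ι : Type*} {S : Set V} (ρ : V → ι)
    (h : ∀ i, KP G {x | x ∈ S ∧ ρ x = i})
    (hn : ∀ x ∈ S, ∀ y ∈ S, ρ x ≠ ρ y → ¬ G.Adj x y) : KP G S := by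
  intro D hD
  choose A hA1 hA2 hA3 using fun i => h i {x | x ∈ D ∧ ρ x = i} (fun x hx => ⟨hD hx.1, hx.2⟩)
  refine ⟨⋃ i, A i, ?_, ?_, ?_⟩
  · intro x hx
    obtain ⟨i, hi⟩ := Set.mem_iUnion.1 hx
    exact (hA1 i hi).1
  · intro x hx y hy hxy
    obtain ⟨i, hi⟩ := Set.mem_iUnion.1 hx
    obtain ⟨j, hj⟩ := Set.mem_iUnion.1 hy
    by_cases hij : i = j
    · subst hij; exact hA2 i x hi y hj hxy
    · refine hn x (hD (hA1 i hi).1) y (hD (hA1 j hj).1) ?_ hxy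
      rw [(hA1 i hi).2, (hA1 j hj).2]; exact hij
  · intro v hv
    rcases hA3 (ρ v) v ⟨hv, rfl⟩ with h' | ⟨a, ha, had⟩
    · exact Or.inl (Set.mem_iUnion.2 ⟨_, h'⟩)
    · exact Or.inr ⟨a, Set.mem_iUnion.2 ⟨_, ha⟩, had⟩

/-- unions of pairwise nonadjacent absorbable sets -/
lemma abs_fibres {G : Digraph V} {ι : Type*} {Y : Set V} (ρ : V → ι)
    (h : ∀ i, Abs G {x | x ∈ Y ∧ ρ x = i})
    (hn : ∀ x ∈ Y, ∀ y ∈ Y, ρ x ≠ ρ y → ¬ G.Adj x y) : Abs G Y := by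
  intro U hU
  choose S T h1 h2 h3 h4 h5 h6 using
    fun i => h i {x | x ∈ U ∧ ρ x = i} (fun x hx => ⟨hU hx.1, hx.2⟩)
  have hS : ∀ i x, x ∈ S i → x ∈ U ∧ ρ x = i := fun i x hx => h1 i hx
  have hT : ∀ i x, x ∈ T i → x ∈ U ∧ ρ x = i := fun i x hx => h2 i hx
  refine ⟨⋃ i, S i, ⋃ i, T i, ?_, ?_, ?_, ?_, ?_, ?_⟩
  · exact Set.iUnion_subset fun i x hx => (hS i x hx).1
  · exact Set.iUnion_subset fun i x hx => (hT i x hx).1
  · intro x hx hx'
    obtain ⟨i, hi⟩ := Set.mem_iUnion.1 hx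
    obtain ⟨j, hj⟩ := Set.mem_iUnion.1 hx'
    have : i = j := by rw [← (hS i x hi).2, ← (hT j x hj).2]
    subst this
    exact h3 i x hi hj
  · apply kp_fibres ρ
    · intro i
      have h' := h4 i
      intro D hD
      exact h' D (fun x hx => by
        obtain ⟨hx1, hx2⟩ := hD hx
        obtain ⟨j, hj⟩ := Set.mem_iUnion.1 hx1
        have : j = i := by rw [← (hS j x hj).2]; exact hx2
        subst this; exact hj)
    · intro x hx y hy
      obtain ⟨i, hi⟩ := Set.mem_iUnion.1 hx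
      obtain ⟨j, hj⟩ := Set.mem_iUnion.1 hy
      exact hn x (hU (hS i x hi).1) y (hU (hS j y hj).1)
  · apply skp_of_rv
    apply kp_fibres (G := P4.rv G) ρ
    · intro i D hD
      exact kp_rv_of_skp (h5 i) D (fun x hx => by
        obtain ⟨hx1, hx2⟩ := hD hx
        obtain ⟨j, hj⟩ := Set.mem_iUnion.1 hx1
        have : j = i := by rw [← (hT j x hj).2]; exact hx2
        subst this; exact hj)
    · intro x hx y hy hne hadj
      obtain ⟨i, hi⟩ := Set.mem_iUnion.1 hx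
      obtain ⟨j, hj⟩ := Set.mem_iUnion.1 hy
      exact hn y (hU (hT j y hj).1) x (hU (hT i x hi).1) hne.symm hadj
  · intro v hv
    rcases h6 (ρ v) v ⟨hv, rfl⟩ with (h' | ⟨a, ha, had⟩) | (h' | ⟨a, ha, had⟩)
    · exact Or.inl (Or.inl (Set.mem_iUnion.2 ⟨_, h'⟩))
    · exact Or.inl (Or.inr ⟨a, Set.mem_iUnion.2 ⟨_, ha⟩, had⟩)
    · exact Or.inr (Or.inl (Set.mem_iUnion.2 ⟨_, h'⟩))
    · exact Or.inr (Or.inr ⟨a, Set.mem_iUnion.2 ⟨_, ha⟩, had⟩)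

lemma abs_aux {G : Digraph V} (hG : ∀ v, ¬ G.Adj v v) {X : Set V} (hX : X.Countable)
    (n : ℕ) (hC : CFun G X (n + 1)) :
    ∀ (m k : ℕ) (U : Set V) (c : V → ℕ), k + m = n → Dom G X U c k → U ⊆ X → Covd G U := by
  intro m
  induction m with
  | zero =>
    intro k U c hk hD hU
    have hk : k = n := by omega
    subst hk
    obtain ⟨S, T, hS1, hT1, hST, hS, hT, hcov⟩ := exists_final hG (D := U ∩ X)
      (hX.mono Set.inter_subset_right) (dom_pair hD hC)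
    exact ⟨S, T, hS1.trans Set.inter_subset_left, hT1.trans Set.inter_subset_left, hST, hS, hT,
      fun v hv => hcov v ⟨hv, hU hv⟩⟩
  | succ m ih =>
    intro k U c hk hD hU
    obtain ⟨S, T, c', hS1, hT1, hST, hS, hT, hD'⟩ := dom_step hG hX hD
    exact covd_layer hS1 hT1 hST hS hT (ih (k + 1) _ c' (by omega) hD'
      (Set.sdiff_subset.trans hU))

lemma abs_countable {G : Digraph V} (hG : ∀ v, ¬ G.Adj v v) {X : Set V} (hX : X.Countable)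
    {n : ℕ} (hC : CFun G X (n + 1)) : Abs G X := by
  intro U hU
  refine abs_aux hG hX n hC n 0 U (fun _ => 0) (by omega) ?_ hU
  intro v _ _ j hj
  exact absurd hj (Nat.not_lt_zero j)

end Pool.Agent.Lib.MP_9317e9_co.Cn
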