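import Mathlib
import Pool.Agent.Lib.MP_9317e9_co.Cn.Abs

set_option autoImplicit false

universe u

namespace Pool.Agent.Lib.MP_9317e9_co.Cn

open Pool.Agent.Lib.MP_9317e9_co Cardinal

variable {V : Type u}

/-- common neighbours in `X` -/
def cnb (G : Digraph V) (X : Set V) (P : Finset V) : Set V :=
  {u | u ∈ X ∧ ∀ s ∈ P, G.Adj u s ∨ G.Adj s u}

/-- any `n` vertices of `X` have at most countably many common neighbours in `X` -/
def CC (G : Digraph V) (X : Set V) (n : ℕ) : Prop :=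
  ∀ P : Finset V, (P : Set V) ⊆ X → P.card = n → (cnb G X P).Countable

lemma CC.mono {G : Digraph V} {X Y : Set V} {n : ℕ} (h : CC G X n) (hY : Y ⊆ X) : CC G Y n :=
  fun P hP hn => (h P (hP.trans hY) hn).mono
    (show cnb G Y P ⊆ cnb G X P from fun _ hu => ⟨hY hu.1, hu.2⟩)

lemma CC.succ {G : Digraph V} {X : Set V} {n : ℕ} (h : CC G X n) : CC G X (n + 1) := by
  classical
  intro P hP hn
  obtain ⟨Q, hQ, hQn⟩ := Finset.exists_subset_card_eq (s := P) (n := n) (by omega)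
  exact (h Q (fun x hx => hP (hQ hx)) hQn).mono
    (show cnb G X P ⊆ cnb G X Q from fun u hu => ⟨hu.1, fun s hs => hu.2 s (hQ hs)⟩)

/-- one closure step -/
def stp (G : Digraph V) (X : Set V) (n : ℕ) (A : Set V) : Set V :=
  A ∪ ⋃ P : Finset A, {u | P.card = n ∧ u ∈ cnb G X (P.map (Function.Embedding.subtype _))}

lemma mk_finset_le' (A : Type u) : #(Finset A) ≤ max #A ℵ₀ := by
  rcases finite_or_infinite A with h | h
  · exact le_max_of_le_right Cardinal.mk_le_aleph0
  · rw [Cardinal.mk_finset_of_infinite]; exact le_max_left _ _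

lemma mk_stp {G : Digraph V} {X : Set V} {n : ℕ} (h : CC G X n) {A : Set V} (hA : A ⊆ X)
    {c : Cardinal.{u}} (hc : ℵ₀ ≤ c) (hAc : #A ≤ c) : #(stp G X n A) ≤ c := by
  refine (Cardinal.mk_union_le _ _).trans ?_
  refine (add_le_add hAc ?_).trans (Cardinal.add_eq_self hc).le
  refine (Cardinal.mk_iUnion_le _).trans ?_
  refine (mul_le_mul' ?_ ?_).trans (Cardinal.mul_eq_self hc).le
  · exact (mk_finset_le' A).trans (max_le hAc hc)
  · refine ciSup_le' fun P => ?_
    refine le_trans ?_ hc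
    rw [Cardinal.le_aleph0_iff_set_countable]
    by_cases hP : P.card = n
    · refine (h (P.map (Function.Embedding.subtype _)) ?_ (by simpa using hP)).mono
        fun u hu => hu.2
      intro x hx
      simp only [Finset.coe_map, Set.mem_image, Finset.mem_coe] at hx
      obtain ⟨y, -, rfl⟩ := hx
      exact hA y.2
    · have : {u | P.card = n ∧ u ∈ cnb G X (P.map (Function.Embedding.subtype _))} = ∅ := by
        ext u; simp [hP]
      rw [this]; exact Set.countable_empty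

lemma stp_sub {G : Digraph V} {X : Set V} {n : ℕ} {A : Set V} (hA : A ⊆ X) :
    stp G X n A ⊆ X := by
  rintro x (hx | hx)
  · exact hA hx
  · obtain ⟨P, -, h⟩ := Set.mem_iUnion.1 hx
    exact h.1

lemma stp_mono {G : Digraph V} {X : Set V} {n : ℕ} {A B : Set V} (h : A ⊆ B) :
    stp G X n A ⊆ stp G X n B := by
  classical
  rintro x (hx | hx)
  · exact Or.inl (h hx)
  · obtain ⟨P, hP, hx⟩ := Set.mem_iUnion.1 hx
    refine Or.inr (Set.mem_iUnion.2 ⟨P.map (Set.embeddingOfSubset _ _ h), by simpa using hP, ?_⟩)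
    refine ⟨hx.1, ?_⟩
    intro s hs
    apply hx.2 s
    simp only [Finset.mem_map] at hs ⊢
    obtain ⟨y, ⟨z, hz, rfl⟩, rfl⟩ := hs
    exact ⟨z, hz, rfl⟩

/-- closure under common neighbours of `n` vertices -/
def cl (G : Digraph V) (X : Set V) (n : ℕ) (A : Set V) : Set V :=
  ⋃ k : ℕ, (stp G X n)^[k] A

lemma iter_sub {G : Digraph V} {X : Set V} {n : ℕ} {A : Set V} (hA : A ⊆ X) (k : ℕ) :
    (stp G X n)^[k] A ⊆ X := by
  induction k with
  | zero => exact hA
  | succ k ih => rw [Function.iterate_succ_apply']; exact stp_sub ih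

lemma cl_sub {G : Digraph V} {X : Set V} {n : ℕ} {A : Set V} (hA : A ⊆ X) :
    cl G X n A ⊆ X := Set.iUnion_subset fun k => iter_sub hA k

lemma sub_cl {G : Digraph V} {X : Set V} {n : ℕ} {A : Set V} : A ⊆ cl G X n A :=
  fun _ hx => Set.mem_iUnion.2 ⟨0, hx⟩

lemma cl_mono {G : Digraph V} {X : Set V} {n : ℕ} {A B : Set V} (h : A ⊆ B) :
    cl G X n A ⊆ cl G X n B := by
  refine Set.iUnion_mono fun k => ?_
  induction k with
  | zero => exact h
  | succ k ih => rw [Function.iterate_succ_apply', Function.iterate_succ_apply']; exact stp_mono ih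

lemma mk_cl {G : Digraph V} {X : Set V} {n : ℕ} (h : CC G X n) {A : Set V} (hA : A ⊆ X)
    {c : Cardinal.{u}} (hc : ℵ₀ ≤ c) (hAc : #A ≤ c) : #(cl G X n A) ≤ c := by
  have h1 : ∀ k : ℕ, #((stp G X n)^[k] A) ≤ c := by
    intro k
    induction k with
    | zero => exact hAc
    | succ k ih => rw [Function.iterate_succ_apply']; exact mk_stp h (iter_sub hA k) hc ih
  have h2 := Cardinal.mk_iUnion_le_lift (fun k : ℕ => (stp G X n)^[k] A)
  rw [Cardinal.lift_id'.{0, u}] at h2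
  refine h2.trans ?_
  refine (mul_le_mul' (b := c) (d := c) ?_ ?_).trans (Cardinal.mul_eq_self hc).le
  · simpa using hc
  · refine ciSup_le' fun k => ?_
    rw [Cardinal.lift_id'.{0, u}]
    exact h1 k

lemma iter_mono {G : Digraph V} {X : Set V} {n : ℕ} {A : Set V} {k l : ℕ} (h : k ≤ l) :
    (stp G X n)^[k] A ⊆ (stp G X n)^[l] A := by
  induction l, h using Nat.le_induction with
  | base => exact le_rfl
  | succ l _ ih =>
    rw [Function.iterate_succ_apply']
    exact ih.trans Set.subset_union_left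

lemma cl_closed {G : Digraph V} {X : Set V} {n : ℕ} {A : Set V} (P : Finset V)
    (hP : (P : Set V) ⊆ cl G X n A) (hn : P.card = n) : cnb G X P ⊆ cl G X n A := by
  classical
  have : ∀ Q : Finset V, Q ⊆ P → ∃ k : ℕ, (Q : Set V) ⊆ (stp G X n)^[k] A := by
    intro Q
    induction Q using Finset.induction_on with
    | empty => intro _; exact ⟨0, by simp⟩
    | insert a s ha ih =>
      intro hs
      obtain ⟨k, hk⟩ := ih fun x hx => hs (Finset.mem_insert_of_mem hx)
      obtain ⟨l, hl⟩ := Set.mem_iUnion.1 (hP (hs (Finset.mem_insert_self a s)))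
      refine ⟨max k l, ?_⟩
      intro x hx
      rcases Finset.mem_insert.1 hx with rfl | hx
      · exact iter_mono (le_max_right k l) hl
      · exact iter_mono (le_max_left k l) (hk hx)
  obtain ⟨k, hk⟩ := this P le_rfl
  clear this
  intro u hu
  refine Set.mem_iUnion.2 ⟨k + 1, ?_⟩
  rw [Function.iterate_succ_apply']
  refine Or.inr (Set.mem_iUnion.2 ⟨P.subtype (· ∈ (stp G X n)^[k] A), ?_, ?_⟩)
  · rw [Finset.card_subtype, Finset.filter_true_of_mem fun x hx => hk hx, hn]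
  · refine ⟨hu.1, fun s hs => hu.2 s ?_⟩
    simp only [Finset.mem_map, Finset.mem_subtype] at hs
    obtain ⟨y, hy, rfl⟩ := hs
    exact hy

/-- the filtration of an uncountable set -/
lemma exists_rank {G : Digraph V} {X : Set V} {n : ℕ} (hn : 0 < n) (h : CC G X n)
    (hX : ℵ₀ < #X) :
    ∃ (ι : Type u) (_ : LinearOrder ι) (_ : WellFoundedLT ι) (ρ : V → ι),
      (∀ i, #{x | x ∈ X ∧ ρ x = i} < #X) ∧
      ∀ v ∈ X, ∀ P : Finset V, (P : Set V) ⊆ X → P.card = n → (∀ w ∈ P, ρ w < ρ v) →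
        v ∉ cnb G X P := by
  classical
  obtain ⟨r, hr, hro⟩ := Cardinal.exists_ord_eq X
  let _ : LinearOrder X := linearOrderOfSTO r
  have _ : WellFoundedLT X := ⟨hr.wf⟩
  have hlt : ∀ x y : X, x < y ↔ r x y := fun x y => Iff.rfl
  let A : X → Set V := fun x => {y | ∃ h : y ∈ X, (⟨y, h⟩ : X) ≤ x}
  have hAX : ∀ x, A x ⊆ X := fun x y hy => hy.1
  have hAmono : ∀ x y, x ≤ y → A x ⊆ A y := fun x y hxy z hz => ⟨hz.1, hz.2.trans hxy⟩
  have hAc : ∀ x, #(A x) < #X := by
    intro x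
    have h1 : #{y : X | y < x} < #X := by
      have := Cardinal.card_typein_lt (r := r) x hro
      rwa [Ordinal.card_typein] at this
    have h2 : #(A x) ≤ #{y : X | y < x} + 1 := by
      have h3 : A x ⊆ insert (x : V) (Subtype.val '' {y : X | y < x}) := by
        rintro y ⟨hy, hyx⟩
        rcases hyx.lt_or_eq with h' | h'
        · exact Or.inr ⟨⟨y, hy⟩, h', rfl⟩
        · exact Or.inl (congrArg Subtype.val h')
      refine (Cardinal.mk_le_mk_of_subset h3).trans (Cardinal.mk_insert_le.trans ?_)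
      exact add_le_add Cardinal.mk_image_le le_rfl
    exact h2.trans_lt (Cardinal.add_lt_of_lt hX.le h1 (Cardinal.one_lt_aleph0.trans hX))
  have hMc : ∀ x, #(cl G X n (A x)) < #X := by
    intro x
    exact (mk_cl h (hAX x) (c := max #(A x) ℵ₀) (le_max_right _ _) (le_max_left _ _)).trans_lt
      (max_lt (hAc x) hX)
  have hne : Nonempty X := by
    by_contra hc
    rw [not_nonempty_iff] at hc
    have : #X = 0 := Cardinal.mk_eq_zero X
    rw [this] at hX
    exact absurd hX (by simp)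
  have hex : ∀ v ∈ X, ∃ x : X, v ∈ cl G X n (A x) :=
    fun v hv => ⟨⟨v, hv⟩, sub_cl ⟨hv, le_rfl⟩⟩
  let ρ : V → X := fun v => if hv : ∃ x : X, v ∈ cl G X n (A x)
    then (wellFounded_lt (α := X)).min {x | v ∈ cl G X n (A x)} hv else hne.some
  have hρ1 : ∀ v ∈ X, v ∈ cl G X n (A (ρ v)) := by
    intro v hv
    simp only [ρ, hex v hv, dif_pos]
    exact (wellFounded_lt (α := X)).min_mem {x | v ∈ cl G X n (A x)} (hex v hv)
  have hρ2 : ∀ v ∈ X, ∀ x, v ∈ cl G X n (A x) → ρ v ≤ x := by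
    intro v hv x hx
    simp only [ρ, hex v hv, dif_pos]
    exact not_lt.1 ((wellFounded_lt (α := X)).not_lt_min {x | v ∈ cl G X n (A x)} hx)
  refine ⟨X, inferInstance, inferInstance, ρ, ?_, ?_⟩
  · intro i
    refine lt_of_le_of_lt (Cardinal.mk_le_mk_of_subset ?_) (hMc i)
    rintro x ⟨hx, rfl⟩
    exact hρ1 x hx
  · intro v hv P hP hPn hlt hcn
    have hPne : P.Nonempty := Finset.card_pos.1 (by omega)
    obtain ⟨m, hm, hmax⟩ := Finset.exists_max_image P ρ hPne
    have h1 : (P : Set V) ⊆ cl G X n (A (ρ m)) := by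
      intro w hw
      exact cl_mono (hAmono _ _ (hmax w hw)) (hρ1 w (hP hw))
    have h2 := cl_closed P h1 hPn hcn
    exact absurd (hlt m hm) (not_lt.2 (hρ2 v hv _ h2))

/-- the colouring -/
lemma exists_col {G : Digraph V} {X : Set V} {n : ℕ} {ι : Type u} [LinearOrder ι]
    [WellFoundedLT ι] (ρ : V → ι)
    (h : ∀ v ∈ X, ∀ P : Finset V, (P : Set V) ⊆ X → P.card = n → (∀ w ∈ P, ρ w < ρ v) →
        v ∉ cnb G X P) :
    ∃ c : V → ℕ, (∀ v ∈ X, c v < n) ∧
      ∀ v ∈ X, ∀ w ∈ X, ρ w < ρ v → (G.Adj v w ∨ G.Adj w v) → c w ≠ c v := by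
  classical
  let B : V → Set V := fun v => {w | w ∈ X ∧ ρ w < ρ v ∧ (G.Adj v w ∨ G.Adj w v)}
  have hwf : WellFounded fun v w : V => ρ v < ρ w := InvImage.wf ρ (wellFounded_lt (α := ι))
  let F : ∀ v : V, (∀ w, ρ w < ρ v → ℕ) → ℕ := fun v rec =>
    sInf {k | ∀ w (hw : w ∈ B v), rec w hw.2.1 ≠ k}
  let c : V → ℕ := hwf.fix F
  have hc : ∀ v, c v = sInf {k | ∀ w ∈ B v, c w ≠ k} := by
    intro v
    exact hwf.fix_eq F v
  have hB : ∀ v ∈ X, ∃ k < n, ∀ w ∈ B v, c w ≠ k := by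
    intro v hv
    by_contra hcon
    have hcon' : ∀ k : ℕ, ∃ w : V, k < n → w ∈ B v ∧ c w = k := by
      intro k
      by_cases hk : k < n
      · by_contra hne
        refine hcon ⟨k, hk, fun w hw hcw => hne ⟨w, fun _ => ⟨hw, hcw⟩⟩⟩
      · exact ⟨v, fun h => absurd h hk⟩
    choose g hg' using hcon'
    have hg : ∀ k < n, g k ∈ B v := fun k hk => (hg' k hk).1
    have hgc : ∀ k < n, c (g k) = k := fun k hk => (hg' k hk).2
    have hinj : Set.InjOn g (Finset.range n : Set ℕ) := by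
      intro a ha b hb hab
      rw [← hgc a (by simpa using ha), ← hgc b (by simpa using hb), hab]
    refine h v hv ((Finset.range n).image g) ?_ ?_ ?_ ⟨hv, ?_⟩
    · intro x hx
      simp only [Finset.coe_image, Set.mem_image, Finset.mem_coe, Finset.mem_range] at hx
      obtain ⟨k, hk, rfl⟩ := hx
      exact (hg k hk).1
    · rw [Finset.card_image_of_injOn hinj, Finset.card_range]
    · intro w hw
      simp only [Finset.mem_image, Finset.mem_range] at hw
      obtain ⟨k, hk, rfl⟩ := hw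
      exact (hg k hk).2.1
    · intro w hw
      simp only [Finset.mem_image, Finset.mem_range] at hw
      obtain ⟨k, hk, rfl⟩ := hw
      exact (hg k hk).2.2
  refine ⟨c, ?_, ?_⟩
  · intro v hv
    obtain ⟨k, hk, hk'⟩ := hB v hv
    rw [hc v]
    exact (Nat.sInf_le (show k ∈ {k | ∀ w ∈ B v, c w ≠ k} from hk')).trans_lt hk
  · intro v hv w hw hρ hadj heq
    obtain ⟨k, -, hk'⟩ := hB v hv
    have : c v ∈ {k | ∀ w ∈ B v, c w ≠ k} := by
      rw [hc v]; exact Nat.sInf_mem ⟨k, hk'⟩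
    exact this w ⟨hw, hρ, hadj⟩ heq

lemma CFun.mono {G : Digraph V} {X Y : Set V} {n : ℕ} (h : CFun G X n) (hY : Y ⊆ X) :
    CFun G Y n := by
  intro p q hp hq h1 h2 h3
  refine (h p q (fun i => hY (hp i)) (fun i => hY (hq i)) h1 h2 h3).subset ?_
  rintro u ⟨hu, hu'⟩
  exact ⟨hY hu, hu'⟩

/-- absorbable sets of any cardinality -/
lemma abs_card {G : Digraph V} (hG : ∀ v, ¬ G.Adj v v) {n m : ℕ} (hn : 0 < n) (c : Cardinal.{u}) :
    ∀ X : Set V, #X = c → CC G X n → CFun G X (m + 1) → Abs G X := by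
  induction c using WellFoundedLT.induction with
  | ind c ih =>
    intro X hXc hA hC
    rcases le_or_gt #X ℵ₀ with hX | hX
    · exact abs_countable hG (Cardinal.le_aleph0_iff_set_countable.1 hX) hC
    · obtain ⟨ι, h1, h2, ρ, hρ1, hρ2⟩ := exists_rank hn hA hX
      obtain ⟨col, hcol1, hcol2⟩ := exists_col ρ hρ2
      have key : ∀ k : Fin n, Abs G {x | x ∈ X ∧ col x = k} := by
        intro k
        apply abs_fibres ρ
        · intro i
          have hsub : {x | x ∈ {x | x ∈ X ∧ col x = (k : ℕ)} ∧ ρ x = i} ⊆ {x | x ∈ X ∧ ρ x = i} :=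
            fun x hx => ⟨hx.1.1, hx.2⟩
          have hsubX : {x | x ∈ X ∧ ρ x = i} ⊆ X := fun x hx => hx.1
          exact (ih _ (hXc ▸ hρ1 i) _ rfl (hA.mono hsubX) (hC.mono hsubX)).mono hsub
        · intro x hx y hy hne hadj
          rcases lt_or_gt_of_ne hne with hlt | hlt
          · exact hcol2 y hy.1 x hx.1 hlt (Or.inr hadj) (hx.2.trans hy.2.symm)
          · exact hcol2 x hx.1 y hy.1 hlt (Or.inl hadj) (hy.2.trans hx.2.symm)
      refine (Abs.iUnion_fin n _ key).mono ?_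
      intro x hx
      exact Set.mem_iUnion.2 ⟨⟨col x, hcol1 x hx⟩, hx, rfl⟩

theorem main_card {G : Digraph V} (hG : ∀ v, ¬ G.Adj v v) {X Z : Set V}
    (hXZ : ∀ v, v ∈ X ∨ v ∈ Z) {n : ℕ} (hA : CC G X n) (hC : CFin G X n)
    (hZ : ∀ U ⊆ Z, ∃ W ⊆ U, (∃ A, QK G W A) ∧ ∃ B, QS G (U \ W) B) :
    ∃ W : Set V, (∃ A, QK G W A) ∧ ∃ B, QS G Wᶜ B := by
  obtain ⟨m, hm⟩ := exists_cfun hC
  have hZ' : ∀ U ⊆ Z, Solv G U := by
    intro U hU
    obtain ⟨W, hWU, ⟨A, hA⟩, B, hB⟩ := hZ U hU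
    exact ⟨W, U \ W, A, B, Set.union_sdiff_cancel hWU, Set.disjoint_sdiff_right, hA, hB⟩
  have habs : Abs G X := abs_card hG (Nat.succ_pos n) #X X rfl hA.succ hm
  obtain ⟨W0, W1, A, B, hW, hd, hA, hB⟩ := habs.solv hZ' Set.univ fun v _ => hXZ v
  have : W1 = W0ᶜ := by
    ext v; constructor
    · intro h h'; exact Set.disjoint_left.1 hd h' h
    · intro h
      have : v ∈ W0 ∪ W1 := hW ▸ Set.mem_univ v
      exact this.resolve_left h
  subst this
  exact ⟨W0, ⟨A, hA⟩, B, hB⟩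

end Pool.Agent.Lib.MP_9317e9_co.Cn
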